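import Mathlib

namespace Pool.Agent.Results.MP_c0ff68_co.Upper

open Finset

variable {V : Type} [Fintype V] [DecidableEq V]

/-- Player I owns `M`, player II owns `B`; the Boolean is `true` when player I is to move.
`Forces P t M B`: player II has a strategy making the final set of player I satisfy `P`. -/
inductive Forces (P : Finset V → Prop) : Bool → Finset V → Finset V → Prop
  | done (t M B) : M ∪ B = univ → P M → Forces P t M B
  | one (M B) : M ∪ B ≠ univ → (∀ x ∉ M ∪ B, Forces P false (insert x M) B) → Forces P true M B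
  | two (M B x) : x ∉ M ∪ B → Forces P true M (insert x B) → Forces P false M B

/-- gap factor at least `c`: whoever starts, Forcer forces Avoider to claim a winning set, and
Breaker keeps Maker to at most `|A|/c` elements of every winning set `A` -/
def Gap (F : Finset (Finset V)) (c : ℝ) : Prop :=
  ∀ t, Forces (fun M => ∃ A ∈ F, A ⊆ M) t ∅ ∅ ∧
    Forces (fun M => ∀ A ∈ F, ((M ∩ A).card : ℝ) ≤ A.card / c) t ∅ ∅

lemma half {P : Finset V → Prop} (A : Finset V) {t M B} (h : Forces P t M B)
    (h1 : (B ∩ A).card ≤ (M ∩ A).card)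
    (h2 : t = false → (B ∩ A).card < (M ∩ A).card ∨ A ⊆ M ∪ B) :
    ∃ M, P M ∧ A.card ≤ 2 * (M ∩ A).card := by
  induction h with
  | done t M B e p =>
    refine ⟨M, p, ?_⟩
    have := card_union_le (M ∩ A) (B ∩ A)
    rw [← union_inter_distrib_right, e, univ_inter] at this
    omega
  | one M B e _ ih =>
    by_cases hA : A ⊆ M ∪ B
    · obtain ⟨x, -, hx⟩ := exists_of_ssubset (ssubset_univ_iff.2 e)
      refine ih x hx (h1.trans (card_le_card (by gcongr; exact subset_insert _ _))) fun _ =>
        Or.inr (hA.trans (by gcongr; exact subset_insert _ _))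
    · obtain ⟨x, hx, hx'⟩ := not_subset.1 hA
      have : (insert x M ∩ A).card = (M ∩ A).card + 1 := by
        rw [insert_inter_of_mem hx, card_insert_of_notMem (by simp at hx' ⊢; tauto)]
      exact ih x hx' (by omega) fun _ => Or.inl (by omega)
  | two M B x hx _ ih =>
    refine ih ?_ (by simp)
    by_cases hA : x ∈ A
    · rcases h2 rfl with h | h
      · rw [insert_inter_of_mem hA]
        exact (card_insert_le _ _).trans h
      · exact absurd (h hA) hx
    · rwa [insert_inter_of_notMem hA]

theorem result (N : ℕ) (F : Finset (Finset (Fin N))) (hF : ∀ A ∈ F, A.Nonempty) (c : ℝ)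
    (hc : 1 ≤ c) (h : Gap F c) : c ≤ 2 := by
  obtain ⟨_, ⟨A, hA, -⟩, -⟩ := half ∅ (h true).1 (by simp) (by simp)
  obtain ⟨M, h1, h2⟩ := half A (h true).2 (by simp) (by simp)
  have h3 := h1 A hA
  have h4 : (0 : ℝ) < A.card := by exact_mod_cast (hF A hA).card_pos
  have h5 : (A.card : ℝ) ≤ 2 * (M ∩ A).card := by exact_mod_cast h2
  rw [le_div_iff₀ (by linarith)] at h3
  nlinarith

end Pool.Agent.Results.MP_c0ff68_co.Upper
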